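import Pool.Agent.Helper26.LU.Goals

/-! Packet LU-D1: least squares. -/

set_option autoImplicit false

namespace Pool.Agent.Helper39.LU

open MeasureTheory Matrix Real Filter Topology
open Pool.Agent.Helper26.LU

theorem integ {μ : Measure ↥SO3} [IsProbabilityMeasure μ] {g : ↥SO3 → ℝ} (hg : Continuous g) :
    Integrable g μ :=
  hg.integrable_of_hasCompactSupport (HasCompactSupport.of_compactSpace g)

/-- the point -/
noncomputable def pt (R : ↥SO3) : V := R.1 *ᵥ e 0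

theorem pt_sph (R : ↥SO3) : pt R ∈ sph := mulVec_sph R.2 (e_sph 0)

theorem pt_cont : Continuous pt :=
  Continuous.matrix_mulVec continuous_subtype_val continuous_const

theorem rbd {t ε : ℝ} (ht : 0 < t) (hε : ε ≤ 1 / 2) (h : |t ^ 2 - 1| ≤ ε) :
    1 / 2 ≤ t ∧ t ≤ 3 / 2 ∧ |t - 1| ≤ ε := by
  have h1 := abs_le.1 h
  have h2 : 1 / 2 ≤ t := by nlinarith
  have h3 : t ≤ 3 / 2 := by nlinarith
  refine ⟨h2, h3, ?_⟩
  have h4 : |t ^ 2 - 1| = |t - 1| * (t + 1) := by
    rw [show t ^ 2 - 1 = (t - 1) * (t + 1) by ring, abs_mul, abs_of_pos (by linarith : 0 < t + 1)]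
  have h5 := abs_nonneg (t - 1)
  nlinarith

theorem rlip {s t : ℝ} (hs : 1 / 2 ≤ s) (ht : 1 / 2 ≤ t) : |s - t| ≤ |s ^ 2 - t ^ 2| := by
  have h4 : |s ^ 2 - t ^ 2| = |s - t| * (s + t) := by
    rw [show s ^ 2 - t ^ 2 = (s - t) * (s + t) by ring, abs_mul,
      abs_of_pos (by linarith : 0 < s + t)]
  have h5 := abs_nonneg (s - t)
  nlinarith

theorem gD1 : G_D1 := by
  intro μ hμ N ⟨c, hc, hM5⟩
  have := hμ.prob
  set K : ℝ := ((Fintype.card (Idx N) : ℕ) : ℝ) with hK
  have hK0 : 0 ≤ K := by positivity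
  set D₁ : ℝ := 3 * (N : ℝ) * 2 ^ (3 * N) with hD₁
  have hD0 : 0 ≤ D₁ := by positivity
  set C₁ : ℝ := K * D₁ with hC₁
  have hC0 : 0 ≤ C₁ := by positivity
  set B₁ : ℝ := K * 2 ^ N with hB₁
  have hB0 : 0 ≤ B₁ := by positivity
  have hsc : 0 < Real.sqrt c := Real.sqrt_pos.2 hc
  have hsc2 : Real.sqrt c ^ 2 = c := Real.sq_sqrt hc.le
  set A₀ : ℝ := 2 / Real.sqrt c with hA₀
  have hA0 : 0 < A₀ := by positivity
  refine ⟨A₀ + 1 + B₁ * A₀ + 3 * C₁ * A₀ + D₁, by positivity,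
    min (1 / 2) (Real.sqrt c / (2 * (C₁ + 1))), by positivity, ?_⟩
  intro r ε κ hε0 hε hκ0 hκ1 hr hbd hlip
  have hε1 : ε ≤ 1 / 2 := hε.trans (min_le_left _ _)
  have hε2 : ε ≤ Real.sqrt c / (2 * (C₁ + 1)) := hε.trans (min_le_right _ _)
  have hCε : (C₁ * ε) ^ 2 ≤ c / 4 := by
    have h1 : C₁ * ε ≤ Real.sqrt c / 2 := by
      have h2 : (C₁ + 1) * ε ≤ Real.sqrt c / 2 := by
        calc (C₁ + 1) * ε ≤ (C₁ + 1) * (Real.sqrt c / (2 * (C₁ + 1))) := by gcongr
          _ = Real.sqrt c / 2 := by field_simp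
      nlinarith
    have h3 : 0 ≤ C₁ * ε := by positivity
    calc (C₁ * ε) ^ 2 ≤ (Real.sqrt c / 2) ^ 2 := pow_le_pow_left₀ h3 h1 2
      _ = c / 4 := by rw [div_pow, hsc2]; norm_num
  -- facts on `r`
  have hrb : ∀ u ∈ sph, 1 / 2 ≤ r u ∧ r u ≤ 3 / 2 ∧ |r u - 1| ≤ ε := fun u hu =>
    rbd (hr u hu) hε1 (hbd u hu)
  have hrl : ∀ u ∈ sph, ∀ v ∈ sph, |r u - r v| ≤ κ * ‖u - v‖ := fun u hu v hv =>
    (rlip (hrb u hu).1 (hrb v hv).1).trans (hlip u hu v hv)
  have hx2 : ∀ u ∈ sph, ‖r u • u‖ ≤ 2 := by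
    intro u hu
    rw [norm_smul, Real.norm_eq_abs, abs_of_pos (hr u hu)]
    have h1 := sph_norm_le hu
    have h2 := (hrb u hu).2.1
    have h3 := norm_nonneg u
    have h4 := hr u hu
    nlinarith
  have hu2 : ∀ u ∈ sph, ‖u‖ ≤ 2 := fun u hu => (sph_norm_le hu).trans (by norm_num)
  have hxu : ∀ u ∈ sph, ‖r u • u - u‖ ≤ ε := by
    intro u hu
    have : r u • u - u = (r u - 1) • u := by rw [sub_smul, one_smul]
    rw [this, norm_smul, Real.norm_eq_abs]
    have h1 := sph_norm_le hu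
    have h2 := (hrb u hu).2.2
    have h3 := norm_nonneg u
    have h4 := abs_nonneg (r u - 1)
    nlinarith
  have hxv : ∀ u ∈ sph, ∀ v ∈ sph, ‖r u • u - r v • v‖ ≤ 3 * ‖u - v‖ := by
    intro u hu v hv
    have : r u • u - r v • v = (r u - r v) • u + r v • (u - v) := by
      rw [sub_smul, smul_sub]; abel
    rw [this]
    refine (norm_add_le _ _).trans ?_
    rw [norm_smul, norm_smul, Real.norm_eq_abs, Real.norm_eq_abs, abs_of_pos (hr v hv)]
    have h1 := sph_norm_le hu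
    have h2 := hrl u hu v hv
    have h3 := (hrb v hv).2.1
    have h4 := norm_nonneg (u - v)
    have h5 := abs_nonneg (r u - r v)
    have h6 : κ * ‖u - v‖ ≤ 1 * ‖u - v‖ := mul_le_mul_of_nonneg_right hκ1 h4
    have h7 : |r u - r v| * ‖u‖ ≤ |r u - r v| * 1 := mul_le_mul_of_nonneg_left h1 h5
    have h8 : r v * ‖u - v‖ ≤ 3 / 2 * ‖u - v‖ := mul_le_mul_of_nonneg_right h3 h4
    linarith
  -- continuity
  have hrc : ContinuousOn r sph := by
    have : LipschitzOnWith κ.toNNReal r sph := by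
      apply LipschitzOnWith.of_dist_le_mul
      intro x hx y hy
      rw [Real.coe_toNNReal _ hκ0, Real.dist_eq, dist_eq_norm]
      exact hrl x hx y hy
    exact this.continuousOn
  have hrc2 : Continuous (fun R : ↥SO3 => r (pt R)) :=
    hrc.comp_continuous pt_cont pt_sph
  set X : ↥SO3 → V := fun R => r (pt R) • pt R with hX
  have hXc : Continuous X := hrc2.smul pt_cont
  have monc : ∀ β : Idx N, Continuous (fun x : V => mon β x) := by
    intro β
    unfold mon
    fun_prop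
  have hφc : ∀ β : Idx N, Continuous (fun R => mon β (X R)) := fun β => (monc β).comp hXc
  have hmc : ∀ β : Idx N, Continuous (fun R => mon β (pt R)) := fun β => (monc β).comp pt_cont
  have hec : ∀ a : Idx N → ℝ, Continuous (fun R => ev a (X R)) := fun a =>
    (ev_continuous a).comp hXc
  have hec2 : ∀ a : Idx N → ℝ, Continuous (fun R => ev a (pt R)) := fun a =>
    (ev_continuous a).comp pt_cont
  -- linearity of the integral
  have hlin : ∀ (g : ↥SO3 → ℝ), Continuous g → ∀ a : Idx N → ℝ,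
      ∫ R, g R * ev a (X R) ∂μ = ∑ t, a t * ∫ R, g R * mon t (X R) ∂μ := by
    intro g hg a
    have h1 : ∀ R, g R * ev a (X R) = ∑ t, a t * (g R * mon t (X R)) := by
      intro R
      rw [ev, Finset.mul_sum]
      apply Finset.sum_congr rfl
      intro t _
      ring
    simp_rw [h1]
    rw [integral_finsetSum]
    · apply Finset.sum_congr rfl
      intro t _
      rw [integral_const_mul]
    · intro t _
      exact integ (continuous_const.mul (hg.mul (hφc t)))
  -- the lower bound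
  have hlow : ∀ a : Idx N → ℝ, c / 4 * ‖a‖ ^ 2 ≤ ∫ R, ev a (X R) * ev a (X R) ∂μ := by
    intro a
    have h1 : ∀ R, (ev a (pt R)) ^ 2 / 2 - (C₁ * ‖a‖ * ε) ^ 2 ≤ ev a (X R) * ev a (X R) := by
      intro R
      have h2 : |ev a (X R) - ev a (pt R)| ≤ C₁ * ‖a‖ * ε := by
        refine (ev_lip a one_le_two (hx2 _ (pt_sph R)) (hu2 _ (pt_sph R))).trans ?_
        rw [hC₁, hD₁, hK]
        gcongr
        exact hxu _ (pt_sph R)
      have h3 : (ev a (X R) - ev a (pt R)) ^ 2 ≤ (C₁ * ‖a‖ * ε) ^ 2 := sq_le_sq' (by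
        have := (abs_le.1 h2).1; linarith) (abs_le.1 h2).2
      nlinarith [sq_nonneg (ev a (pt R) + 2 * (ev a (X R) - ev a (pt R)))]
    have h4 : ∫ R, ((ev a (pt R)) ^ 2 / 2 - (C₁ * ‖a‖ * ε) ^ 2) ∂μ ≤
        ∫ R, ev a (X R) * ev a (X R) ∂μ := by
      apply integral_mono
      · exact integ ((((hec2 a).pow 2).div_const _).sub continuous_const)
      · exact integ ((hec a).mul (hec a))
      · exact h1
    have hq : Continuous (fun R : ↥SO3 => (ev a (pt R)) ^ 2 / 2) := ((hec2 a).pow 2).div_const _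
    have h4' : ∫ R, ((ev a (pt R)) ^ 2 / 2 - (C₁ * ‖a‖ * ε) ^ 2) ∂μ =
        (∫ R, (ev a (pt R)) ^ 2 ∂μ) / 2 - (C₁ * ‖a‖ * ε) ^ 2 := by
      rw [integral_sub (integ (μ := μ) hq) (integrable_const _), integral_div, integral_const]
      simp
    rw [h4'] at h4
    have h5 := hM5 a
    have h6 : (C₁ * ‖a‖ * ε) ^ 2 ≤ c / 4 * ‖a‖ ^ 2 := by
      have : (C₁ * ‖a‖ * ε) ^ 2 = (C₁ * ε) ^ 2 * ‖a‖ ^ 2 := by ring
      rw [this]
      gcongr
    have h7 : ∫ R : ↥SO3, (ev a (R.1 *ᵥ e 0)) ^ 2 ∂μ = ∫ R, (ev a (pt R)) ^ 2 ∂μ := rfl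
    rw [h7] at h5
    linarith
  -- the linear map
  set G : Matrix (Idx N) (Idx N) ℝ := fun β t => ∫ R, mon β (X R) * mon t (X R) ∂μ with hG
  have hGa : ∀ (a : Idx N → ℝ) (β : Idx N),
      (G *ᵥ a) β = ∫ R, mon β (X R) * ev a (X R) ∂μ := by
    intro a β
    rw [hlin _ (hφc β) a]
    simp only [Matrix.mulVec, dotProduct, hG]
    apply Finset.sum_congr rfl
    intro t _
    ring
  have hquad : ∀ a : Idx N → ℝ, ∫ R, ev a (X R) * ev a (X R) ∂μ = ∑ β, a β * (G *ᵥ a) β := by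
    intro a
    rw [hlin _ (hec a) a]
    apply Finset.sum_congr rfl
    intro β _
    rw [hGa]
    congr 1
    apply integral_congr_ae
    filter_upwards with R
    ring
  have hinj : Function.Injective (G.mulVecLin) := by
    rw [← LinearMap.ker_eq_bot, LinearMap.ker_eq_bot']
    intro a ha
    have h1 : G *ᵥ a = 0 := by simpa using ha
    have h2 := hlow a
    rw [hquad, h1] at h2
    simp only [Pi.zero_apply, mul_zero, Finset.sum_const_zero] at h2
    have h3 : ‖a‖ ^ 2 ≤ 0 := by nlinarith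
    have h4 : ‖a‖ = 0 := by
      have := norm_nonneg a
      nlinarith
    exact norm_eq_zero.1 h4
  have hsur : Function.Surjective (G.mulVecLin) := LinearMap.injective_iff_surjective.1 hinj
  set f : ↥SO3 → ℝ := fun R => r (pt R) ^ 2 - 1 with hf
  have hfc : Continuous f := (hrc2.pow 2).sub continuous_const
  obtain ⟨a, ha⟩ := hsur (fun β : Idx N => ∫ R, mon β (X R) * f R ∂μ)
  have ha' : ∀ β : Idx N, ∫ R, mon β (X R) * ev a (X R) ∂μ = ∫ R, mon β (X R) * f R ∂μ := by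
    intro β
    rw [← hGa a β]
    have := congrFun ha β
    simpa using this
  -- the norm of `a`
  have hfe : ∫ R, f R * ev a (X R) ∂μ = ∫ R, ev a (X R) * ev a (X R) ∂μ := by
    rw [hlin _ hfc a, hlin _ (hec a) a]
    apply Finset.sum_congr rfl
    intro t _
    congr 1
    calc ∫ R, f R * mon t (X R) ∂μ = ∫ R, mon t (X R) * f R ∂μ := by
          apply integral_congr_ae; filter_upwards with R; ring
      _ = ∫ R, mon t (X R) * ev a (X R) ∂μ := (ha' t).symm
      _ = ∫ R, ev a (X R) * mon t (X R) ∂μ := by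
          apply integral_congr_ae; filter_upwards with R; ring
  have hff : ∫ R, f R * f R ∂μ ≤ ε ^ 2 := by
    calc ∫ R, f R * f R ∂μ ≤ ∫ _R : ↥SO3, ε ^ 2 ∂μ := by
          apply integral_mono (integ (hfc.mul hfc)) (integ continuous_const)
          intro R
          have h1 := abs_le.1 (hbd _ (pt_sph R))
          show f R * f R ≤ ε ^ 2
          simp only [hf]
          nlinarith
      _ = ε ^ 2 := by simp
  have hee : ∫ R, ev a (X R) * ev a (X R) ∂μ ≤ ε ^ 2 := by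
    have h1 : 0 ≤ ∫ R, (f R - ev a (X R)) * (f R - ev a (X R)) ∂μ :=
      integral_nonneg (fun R => mul_self_nonneg _)
    have h2 : ∫ R, (f R - ev a (X R)) * (f R - ev a (X R)) ∂μ =
        ∫ R, f R * f R ∂μ - 2 * ∫ R, f R * ev a (X R) ∂μ +
          ∫ R, ev a (X R) * ev a (X R) ∂μ := by
      have q1 : Continuous (fun R => f R * f R) := hfc.mul hfc
      have q2 : Continuous (fun R => 2 * (f R * ev a (X R))) :=
        continuous_const.mul (hfc.mul (hec a))
      have q3 : Continuous (fun R => ev a (X R) * ev a (X R)) := (hec a).mul (hec a)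
      have q4 : Continuous (fun R => f R * f R - 2 * (f R * ev a (X R))) := q1.sub q2
      rw [← integral_const_mul, ← integral_sub (integ q1) (integ q2), ← integral_add
        (integ q4) (integ q3)]
      apply integral_congr_ae
      filter_upwards with R
      ring
    rw [h2, hfe] at h1
    linarith
  have han : ‖a‖ ≤ A₀ * ε := by
    have h1 := (hlow a).trans hee
    have h2 : (Real.sqrt c / 2 * ‖a‖) ^ 2 ≤ ε ^ 2 := by
      rw [mul_pow, div_pow, hsc2]
      calc c / 2 ^ 2 * ‖a‖ ^ 2 = c / 4 * ‖a‖ ^ 2 := by norm_num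
        _ ≤ ε ^ 2 := h1
    have h3 : Real.sqrt c / 2 * ‖a‖ ≤ ε := le_of_sq_le_sq h2 hε0
    calc ‖a‖ = A₀ * (Real.sqrt c / 2 * ‖a‖) := by rw [hA₀]; field_simp
      _ ≤ A₀ * ε := by gcongr
  have hBA : 0 ≤ B₁ * A₀ := by positivity
  have hCA : 0 ≤ 3 * C₁ * A₀ := by positivity
  refine ⟨a, ?_, ?_, ?_, ?_⟩
  · refine han.trans ?_
    apply mul_le_mul_of_nonneg_right _ hε0
    linarith
  · intro u hu
    unfold res
    have h1 : |r u ^ 2 - 1 - ev a (r u • u)| ≤ |r u ^ 2 - 1| + |ev a (r u • u)| := abs_sub _ _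
    have h2 : |ev a (r u • u)| ≤ B₁ * ‖a‖ := ev_bound a one_le_two (hx2 u hu)
    have h3 : B₁ * ‖a‖ ≤ B₁ * (A₀ * ε) := by gcongr
    have h4 := hbd u hu
    have h5 : (A₀ + 1 + B₁ * A₀ + 3 * C₁ * A₀ + D₁) * ε =
        ε + B₁ * (A₀ * ε) + (A₀ + 3 * C₁ * A₀ + D₁) * ε := by ring
    have h6 : 0 ≤ (A₀ + 3 * C₁ * A₀ + D₁) * ε := by positivity
    linarith
  · intro u hu v hv
    unfold res
    have h1 : |r u ^ 2 - 1 - ev a (r u • u) - (r v ^ 2 - 1 - ev a (r v • v))| ≤
        |r u ^ 2 - r v ^ 2| + |ev a (r u • u) - ev a (r v • v)| := by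
      have : r u ^ 2 - 1 - ev a (r u • u) - (r v ^ 2 - 1 - ev a (r v • v)) =
        (r u ^ 2 - r v ^ 2) - (ev a (r u • u) - ev a (r v • v)) := by ring
      rw [this]
      exact abs_sub _ _
    have h2 : |ev a (r u • u) - ev a (r v • v)| ≤ C₁ * ‖a‖ * ‖r u • u - r v • v‖ :=
      ev_lip a one_le_two (hx2 u hu) (hx2 v hv)
    have h3 : C₁ * ‖a‖ * ‖r u • u - r v • v‖ ≤ C₁ * (A₀ * ε) * (3 * ‖u - v‖) := by
      gcongr
      exact hxv u hu v hv
    have h4 := hlip u hu v hv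
    have hn := norm_nonneg (u - v)
    have h5 : (A₀ + 1 + B₁ * A₀ + 3 * C₁ * A₀ + D₁) * (κ + ε) * ‖u - v‖ =
        κ * ‖u - v‖ + C₁ * (A₀ * ε) * (3 * ‖u - v‖) +
          ((A₀ + B₁ * A₀ + 3 * C₁ * A₀ + D₁) * κ + (A₀ + 1 + B₁ * A₀ + D₁) * ε) * ‖u - v‖ := by
      ring
    have h6 : 0 ≤ ((A₀ + B₁ * A₀ + 3 * C₁ * A₀ + D₁) * κ + (A₀ + 1 + B₁ * A₀ + D₁) * ε) *
        ‖u - v‖ := by positivity
    linarith
  · intro E hE α
    have hE0 : 0 ≤ E := (abs_nonneg _).trans (hE (e 0) (e_sph 0))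
    have hresc : Continuous (fun R => res r a (pt R)) := by
      unfold res
      exact ((hrc2.pow 2).sub continuous_const).sub (hec a)
    have h1 : ∫ R, res r a (pt R) * mon α (X R) ∂μ = 0 := by
      have h2 : ∀ R, res r a (pt R) * mon α (X R) =
          mon α (X R) * f R - mon α (X R) * ev a (X R) := by
        intro R
        simp only [res, hf, hX]
        ring
      simp_rw [h2]
      have q1 : Continuous (fun R => mon α (X R) * f R) := (hφc α).mul hfc
      have q2 : Continuous (fun R => mon α (X R) * ev a (X R)) := (hφc α).mul (hec a)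
      rw [integral_sub (integ q1) (integ q2), ha' α]
      ring
    have h3 : ∫ R : ↥SO3, res r a (R.1 *ᵥ e 0) * mon α (R.1 *ᵥ e 0) ∂μ =
        ∫ R, res r a (pt R) * (mon α (pt R) - mon α (X R)) ∂μ := by
      have h4 : ∫ R, res r a (pt R) * (mon α (pt R) - mon α (X R)) ∂μ =
          ∫ R, res r a (pt R) * mon α (pt R) ∂μ - ∫ R, res r a (pt R) * mon α (X R) ∂μ := by
        have q1 : Continuous (fun R => res r a (pt R) * mon α (pt R)) := hresc.mul (hmc α)
        have q2 : Continuous (fun R => res r a (pt R) * mon α (X R)) := hresc.mul (hφc α)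
        rw [← integral_sub (integ q1) (integ q2)]
        apply integral_congr_ae
        filter_upwards with R
        ring
      rw [h4, h1, sub_zero]
      rfl
    rw [h3]
    have h5 : ∀ R, ‖res r a (pt R) * (mon α (pt R) - mon α (X R))‖ ≤ E * (D₁ * ε) := by
      intro R
      rw [norm_mul, Real.norm_eq_abs, Real.norm_eq_abs]
      have h6 : |mon α (pt R) - mon α (X R)| ≤ D₁ * ε := by
        refine (mon_lip α one_le_two (hu2 _ (pt_sph R)) (hx2 _ (pt_sph R))).trans ?_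
        rw [hD₁]
        gcongr
        rw [norm_sub_rev]
        exact hxu _ (pt_sph R)
      exact mul_le_mul (hE _ (pt_sph R)) h6 (abs_nonneg _) hE0
    have h7 := norm_integral_le_of_norm_le_const (μ := μ) (Filter.Eventually.of_forall h5)
    rw [Real.norm_eq_abs, probReal_univ, mul_one] at h7
    refine h7.trans ?_
    have h8 : (A₀ + 1 + B₁ * A₀ + 3 * C₁ * A₀ + D₁) * ε * E =
        E * (D₁ * ε) + (A₀ + 1 + B₁ * A₀ + 3 * C₁ * A₀) * ε * E := by ring
    have h9 : 0 ≤ (A₀ + 1 + B₁ * A₀ + 3 * C₁ * A₀) * ε * E := by positivity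
    linarith

end Pool.Agent.Helper39.LU
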